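import Mathlib
import Pool.Agent.Q230.BzT113
import Pool.Agent.Q230.BzAdj

/-!
# 2-adic continuity of a trimer tiling count on benzels

MP_b072c6_co, Q1: the function `f(n) = T₁₁₃(n, 2n-3)`, `n ≥ 4`, is 2-adically continuous, where
`T₁₁₃(a,b)` is the number of partitions of the `(a,b)`-benzel into stones (sets of three pairwise
adjacent cells) and bones (sets `{c - d, c, c + d}`, `d` a permutation of `(1,-1,0)`).

The definitions `benzel`, `IsTiling`, `numTilings` are in `Pool/Agent/Q230/BzDefs.lean`; `Adj`,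
`IsStone`, `IsBoneAny` are in `Pool/Agent/Q230/BzAdj.lean`.
-/

namespace Pool.Agent.Results.MP_b072c6_co.TwoAdic

open Q230.Benzel

/-- `T₁₁₃(a,b)`: the number of tilings of the `(a,b)`-benzel by stones and bones of all kinds. -/
noncomputable def T113 (a b : ℤ) : ℕ :=
  numTilings (fun t => IsStone t ∨ IsBoneAny t) (benzel a b)

/-- `f(n) = T₁₁₃(n, 2n-3)` -/
noncomputable def f (n : ℕ) : ℕ := T113 n (2*n-3)

theorem result : ∀ k : ℕ, 1 ≤ k → ∃ m : ℕ, ∀ n n' : ℕ, 4 ≤ n → 4 ≤ n' →
    n ≡ n' [MOD 2^m] → f n ≡ f n' [MOD 2^k] := by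
  intro k _
  have h : (fun t => IsStone t ∨ IsBoneAny t) = Q230.Bz.All5 := by
    funext t
    exact propext (Q230.Bz.all_iff t)
  unfold f T113
  rw [h]
  exact Q230.Bz.contA k

end Pool.Agent.Results.MP_b072c6_co.TwoAdic
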